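import Mathlib
import Pool.Agent.Q148.BM.TensReg

/-!
# Breuil–Mézard for `GL_2` over a `p`-adic field: a recursion in the Hodge type for all types

Notation. `J`: the embeddings `K → E`. A labelled weight `l : HT J 2` is a pair of integers for
every embedding; `Reg l`: strictly decreasing at every embedding, i.e. `l = λ + (1,0)` with a
Hodge type `λ`; `eta = (1,0)` is the Hodge type `0`.

`T`: the types `σ(t)`, irreducible representations of `GL_2(O_K)`, for all inertial types
(potentially crystalline), together with the products of the Steinberg representation with the
`χ ∘ det` (potentially semistable of type `χ ⊕ χ`). The Brauer lift of the standard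
representation (along an embedding `j`) is a virtual representation of `GL_2(k)`, `k` the residue
field; its product with a type is an integral combination of types: `σ(t)` is induced from a
group `I` with a normal pro-`p` subgroup `I¹` such that `I / I¹` is `GL_2(k)` or a torus, and
one multiplies the inducing representation with the restriction to `I / I¹`. For example for a
principal series type with a wild ratio of the characters the product is
`σ(χ₁ω_j ⊕ χ₂) + σ(χ₁ ⊕ χ₂ω_j)`. The set `T` of all tame types is closed under these products, too.
-/

namespace Pool.Agent.Results.MP_39033f_nt.AllTypes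

open Q148.BM Finset

/-- The data of the conjecture for a fixed two-dimensional residual representation of `G_K`
with the published properties that are used. `T`: types. `V`: Serre weights. `n t k l`: the
multiplicity of `k` in the reduction of `W_λ ⊗ σ(t)`. `mult t l`: the Hilbert–Samuel multiplicity
of the special fibre of the lifting ring for `σ(t)` and the Hodge type `λ`. -/
structure TypeData (J T V : Type*) [Fintype J] [DecidableEq J] [Fintype V] where
  /-- multiplicities of Serre weights -/
  n : T → V → HT J 2 → ℤ
  /-- Hilbert–Samuel multiplicities -/
  mult : T → HT J 2 → ℤ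
  /-- `c j 1 t t'`: the coefficient of `σ(t')` in the product of `σ(t)` with the Brauer lift of
  the standard representation (along `j`); `c j 2 t t'`: the same for the determinant -/
  c : J → ℕ → T → (T →₀ ℤ)
  /-- `σ(τ j t)` is the product of `σ(t)` with the Brauer lift of the determinant -/
  τ : J → T ≃ T
  /-- the meaning of `τ` -/
  det : ∀ j t, c j 2 t = Finsupp.single (τ j t) 1
  /-- Pieri's rule: the multiplicities of Serre weights satisfy the tensor relations -/
  tensor_n : ∀ k, TensRel 2 c (fun t => n t k)
  /-- Brauer: the decomposition map of `GL_2(k)` is surjective (already with tame types) -/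
  span_n : Submodule.span ℤ (Set.range fun t k => n t k eta) = ⊤
  /-- twisting by potentially crystalline characters which are trivial modulo `p` -/
  twist : TwistT τ mult

/-- The conjecture holds for the given residual representation, all types and all Hodge types
if and only if (i) for all regular `l`, `e(t; l + ε₁) + e(t; l + ε₂)` is the combination of the
`e(t'; l)` with the coefficients of the product of `σ(t)` with the Brauer lift of the
standard representation; (ii) for Hodge type zero the multiplicities are nonnegative on the
combinations of types whose reduction modulo `p` is effective. -/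
theorem result {J T V : Type*} [Fintype J] [DecidableEq J] [Fintype V] (D : TypeData J T V) :
    (∃ μ : V → ℤ, (∀ k, 0 ≤ μ k) ∧
        ∀ t l, Reg l → D.mult t l = ∑ k, D.n t k l * μ k) ↔
      (∀ t (j : J) (l : HT J 2), Reg l →
        D.mult t (l + bump j {0} 1) +
          (if l j 1 + 1 < l j 0 then D.mult t (l + bump j {1} 1) else 0) =
        (D.c j 1 t).sum fun t' m => m * D.mult t' l) ∧
      (∀ m : T →₀ ℤ, (∀ k, 0 ≤ m.sum fun t x => x * D.n t k eta) →
        0 ≤ m.sum fun t x => x * D.mult t eta) := by
  have hreg : TensReg D.c D.mult ↔ ∀ t (j : J) (l : HT J 2), Reg l →
      D.mult t (l + bump j {0} 1) +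
        (if l j 1 + 1 < l j 0 then D.mult t (l + bump j {1} 1) else 0) =
      (D.c j 1 t).sum fun t' m => m * D.mult t' l := by
    have key : ∀ (t : T) (j : J) (l : HT J 2), Reg l →
        ((∑ S ∈ powersetCard 1 univ, alt (D.mult t) (l + bump j S 1) =
          (D.c j 1 t).sum fun t' m => m • alt (D.mult t') l) ↔
        (D.mult t (l + bump j {0} 1) +
          (if l j 1 + 1 < l j 0 then D.mult t (l + bump j {1} 1) else 0) =
          (D.c j 1 t).sum fun t' m => m * D.mult t' l)) := by
      intro t j l hl
      rw [sum_two, alt_of_reg _ (reg_bump0 j l hl), alt_bump1 _ j l hl]
      have : ((D.c j 1 t).sum fun t' m => m • alt (D.mult t') l) =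
          (D.c j 1 t).sum fun t' m => m * D.mult t' l :=
        Finset.sum_congr rfl fun t' _ => by
          beta_reduce
          rw [alt_of_reg _ hl, smul_eq_mul]
      rw [this]
    constructor
    · intro h t j l hl
      exact (key t j l hl).1 (h t j 1 le_rfl one_lt_two l hl)
    · intro h t j i h1 h2 l hl
      obtain rfl : i = 1 := by omega
      exact (key t j l hl).2 (h t j l hl)
  rw [← hreg, ← factor_num D.span_n fun t => D.mult t eta]
  constructor
  · rintro ⟨μ, h1, h2⟩
    have h3 := (criterionTR two_pos D.det D.tensor_n D.mult D.twist μ).1 (by simpa using h2)
    exact ⟨h3.1, μ, h1, by simpa using h3.2⟩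
  · rintro ⟨h1, μ, h2, h3⟩
    refine ⟨μ, h2, ?_⟩
    have h4 := (criterionTR two_pos D.det D.tensor_n D.mult D.twist μ).2 ⟨h1, by simpa using h3⟩
    simpa using h4

end Pool.Agent.Results.MP_39033f_nt.AllTypes
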