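import Mathlib
import Pool.Agent.Q148.BM.Red

/-!
# Breuil–Mézard for `GL_2` over a `p`-adic field: four-term inequalities suffice

Notation. `K / ℚ_p` has residue degree `f` and ramification index `e`; `Emb f e = ℤ/f × Fin e`
is the set of embeddings `K → E`, `(i, t)` lying over the embedding `i` of the residue field and
`i + 1` being `Frobenius ∘ i`. A labelled weight `l : HT (Emb f e) 2` is a pair of integers
for every embedding; `Reg l`: strictly decreasing at every embedding, i.e. `l = λ + (1,0)`
with a Hodge type `λ`.
-/

namespace Pool.Agent.Results.MP_39033f_nt.FourTermInequality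

open Q148.BM Finset

/-- The data of the conjecture for a fixed two-dimensional residual representation of `G_K`
with the properties that are used. `T`: inertial types. `W`: Serre weights. `n t k l`: the
multiplicity of `k` in the reduction of `W_λ ⊗ σ(t)`. `mult t l`: the Hilbert–Samuel multiplicity
of the special fibre of the lifting ring of type `t` and Hodge type `λ`. `μ`: numbers
attached to the Serre weights (the multiplicities of patched modules). -/
structure LowerData (p f e : ℕ) [NeZero f] [NeZero e] (T W : Type*) [Fintype W] where
  /-- multiplicities of Serre weights -/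
  n : T → W → HT (Emb f e) 2 → ℤ
  /-- Hilbert–Samuel multiplicities -/
  mult : T → HT (Emb f e) 2 → ℤ
  /-- numbers attached to the Serre weights -/
  μ : W → ℤ
  /-- Brauer characters: the multiplicities satisfy the Frobenius relations -/
  frobenius_n : ∀ t k, PowRel p 2 (n t k)
  /-- twisting by crystalline characters which are trivial modulo `p` -/
  twist : ∀ t, TwistRel p (mult t)
  /-- the lower bound of patching -/
  lower : ∀ t l, Reg l → ∑ k, n t k l * μ k ≤ mult t l
  /-- the identity for the lifts of Serre weights -/
  lifts : ∀ t b, IsLift p b → mult t b = ∑ k, n t k b * μ k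

/-- Given the lower bound and the identity for the finitely many Hodge types which lift Serre
weights, the identity holds for all Hodge types and inertial types if and only if the four-term
inequalities hold at the regular weights. -/
theorem result {p f e : ℕ} [NeZero f] [NeZero e] (hp : p.Prime) {T W : Type*} [Fintype W]
    (D : LowerData p f e T W) :
    (∀ t l, Reg l → D.mult t l = ∑ k, D.n t k l * D.μ k) ↔
      ∀ (t : T) (i : ZMod f) (l : HT (Emb f e) 2), Reg l →
        (alt (D.mult t) (l + bump (i, 0) {0} p) + alt (D.mult t) (l + bump (i, 0) {1} p) ≤
          alt (D.mult t) (l + bump (i + 1, 0) {0} 1) +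
            alt (D.mult t) (l + bump (i + 1, 0) {1} 1)) ∧
        ∀ a : Fin e,
          alt (D.mult t) (l + bump (i, a) {0} 1) + alt (D.mult t) (l + bump (i, a) {1} 1) ≤
          alt (D.mult t) (l + bump (i, 0) {0} 1) + alt (D.mult t) (l + bump (i, 0) {1} 1) := by
  rw [one_sided_reg hp.two_le D.n D.frobenius_n D.mult D.twist D.μ D.lower D.lifts]
  refine forall_congr' fun t => ?_
  have key : ∀ F : Finset (Fin 2) → ℤ, ∑ S ∈ powersetCard 1 univ, F S = F {0} + F {1} := by
    intro F
    rw [powersetCard_one, sum_map, Fin.sum_univ_two]
    rfl
  constructor
  · intro h i l hl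
    refine ⟨?_, fun a => ?_⟩
    · have := h.1 i 1 le_rfl one_lt_two l hl
      rwa [key, key] at this
    · have := h.2 i a 1 le_rfl one_lt_two l hl
      rwa [key, key] at this
  · intro h
    refine ⟨fun i k h1 h2 l hl => ?_, fun i a k h1 h2 l hl => ?_⟩
    · obtain rfl : k = 1 := by omega
      rw [key, key]
      exact (h i l hl).1
    · obtain rfl : k = 1 := by omega
      rw [key, key]
      exact (h i l hl).2 a

end Pool.Agent.Results.MP_39033f_nt.FourTermInequality
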