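import Mathlib
import Pool.Agent.Q148.BM.TensLe

/-!
# Breuil–Mézard for `GL_2` over a `p`-adic field: from the Barsotti–Tate case to all Hodge types
by one-sided bounds

Notation. `J`: the embeddings `K → E`. A labelled weight `l : HT J 2` is a pair of integers for
every embedding; `Reg l`: strictly decreasing at every embedding, i.e. `l = λ + (1,0)` with a
Hodge type `λ`; `eta = (1,0)` is the Hodge type `0`.

`T`: a set of types `σ(t)`, irreducible representations of `GL_2(O_K)`, which is closed under
products with the Brauer lifts of the standard representation and of the determinant (along the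
embeddings): the product of `σ(t)` with such a lift is an integral combination of `σ(t')` with
`t' ∈ T`. Examples: the types of all inertial types (potentially crystalline) together with the
products of the Steinberg representation with the `χ ∘ det` (potentially semistable of type
`χ ⊕ χ`); the tame ones among these; the principal series types whose two characters have a
wild ratio, for which the product is `σ(χ₁ω_j ⊕ χ₂) + σ(χ₁ ⊕ χ₂ω_j)`.
-/

namespace Pool.Agent.Results.MP_39033f_nt.OneSidedRecursion

open Q148.BM Finset

/-- The data of the conjecture for a fixed two-dimensional residual representation of `G_K`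
with the properties that are used. `T`: types. `V`: Serre weights. `n t k l`: the
multiplicity of `k` in the reduction of `W_λ ⊗ σ(t)`. `mult t l`: the Hilbert–Samuel multiplicity
of the special fibre of the lifting ring for `σ(t)` and the Hodge type `λ`. `μ`: numbers attached
to the Serre weights (the multiplicities of patched modules). -/
structure PatchData (J T V : Type*) [Fintype J] [DecidableEq J] [Fintype V] where
  /-- multiplicities of Serre weights -/
  n : T → V → HT J 2 → ℤ
  /-- Hilbert–Samuel multiplicities -/
  mult : T → HT J 2 → ℤ
  /-- numbers attached to the Serre weights -/
  μ : V → ℤ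
  /-- `c j 1 t t'`: the coefficient of `σ(t')` in the product of `σ(t)` with the Brauer lift of
  the standard representation (along `j`); `c j 2 t t'`: the same for the determinant -/
  c : J → ℕ → T → (T →₀ ℤ)
  /-- `σ(τ j t)` is the product of `σ(t)` with the Brauer lift of the determinant -/
  τ : J → T ≃ T
  /-- the meaning of `τ` -/
  det : ∀ j t, c j 2 t = Finsupp.single (τ j t) 1
  /-- Pieri's rule: the multiplicities of Serre weights satisfy the tensor relations -/
  tensor_n : ∀ k, TensRel 2 c (fun t => n t k)
  /-- twisting by potentially crystalline characters which are trivial modulo `p` -/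
  twist : TwistT τ mult
  /-- the lower bound of patching -/
  lower : ∀ t l, Reg l → ∑ k, n t k l * μ k ≤ mult t l
  /-- the potentially Barsotti–Tate case -/
  barsotti_tate : ∀ t, mult t eta = ∑ k, n t k eta * μ k

/-- The identity of the conjecture holds for all Hodge types and all types in `T` if and only if
`e(t; l + ε₁) + e(t; l + ε₂)` is at most the combination of the `e(t'; l)` with the coefficients
of the product of `σ(t)` with the Brauer lift of the standard representation. -/
theorem result {J T V : Type*} [Fintype J] [DecidableEq J] [Fintype V] (D : PatchData J T V) :
    (∀ t l, Reg l → D.mult t l = ∑ k, D.n t k l * D.μ k) ↔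
      ∀ t (j : J) (l : HT J 2), Reg l →
        D.mult t (l + bump j {0} 1) +
          (if l j 1 + 1 < l j 0 then D.mult t (l + bump j {1} 1) else 0) ≤
        (D.c j 1 t).sum fun t' m => m * D.mult t' l := by
  rw [criterionTL two_pos D.det D.tensor_n D.mult D.twist D.μ D.lower,
    and_iff_left D.barsotti_tate]
  constructor
  · intro h t j l hl
    have := h t j 1 le_rfl one_lt_two l hl
    rwa [sum_two, alt_of_reg _ (reg_bump0 j l hl), alt_bump1 _ j l hl] at this
  · intro h t j i h1 h2 l hl
    obtain rfl : i = 1 := by omega
    rw [sum_two, alt_of_reg _ (reg_bump0 j l hl), alt_bump1 _ j l hl]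
    exact h t j l hl

end Pool.Agent.Results.MP_39033f_nt.OneSidedRecursion
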